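import Pool.Agent.Helper99.WP.GoalsW

/-!
Packet WLA: loop erasure of the walker.
-/

set_option autoImplicit false

namespace Pool.Agent.Helper67.WP

open Finset
open Pool.Agent.Helper99.WP

theorem chain_fwd {V : Type} {R : V → V → Prop} : ∀ (l : List V) (b : V), l.IsChain R →
    l.getLast? = some b → ∀ z ∈ l, z = b ∨ ∃ w ∈ l, R z w
  | [], b, _, _, z, hz => by simp at hz
  | [a], b, _, hb, z, hz => by
    simp only [List.getLast?_singleton, Option.some.injEq] at hb
    simp only [List.mem_singleton] at hz
    exact Or.inl (hz.trans hb)
  | a :: a' :: l, b, hc, hb, z, hz => by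
    rw [List.isChain_cons_cons] at hc
    rw [List.getLast?_cons_cons] at hb
    rcases List.mem_cons.1 hz with h | h
    · right
      exact ⟨a', by simp, h ▸ hc.1⟩
    · rcases chain_fwd (a' :: l) b hc.2 hb z h with h1 | ⟨w, hw, h1⟩
      · exact Or.inl h1
      · exact Or.inr ⟨w, List.mem_cons_of_mem _ hw, h1⟩

theorem chain_bwd {V : Type} {R : V → V → Prop} : ∀ (l : List V) (a : V), (a :: l).IsChain R →
    ∀ w ∈ a :: l, w = a ∨ ∃ z ∈ a :: l, R z w
  | [], a, _, w, hw => Or.inl (by simpa using hw)
  | a' :: l, a, hc, w, hw => by
    rw [List.isChain_cons_cons] at hc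
    rcases List.mem_cons.1 hw with h | h
    · exact Or.inl h
    · rcases chain_bwd l a' hc.2 w h with h1 | ⟨z, hz, h1⟩
      · exact Or.inr ⟨a, by simp, h1 ▸ hc.1⟩
      · exact Or.inr ⟨z, List.mem_cons_of_mem _ hz, h1⟩

theorem chain_imp {V : Type} {R S : V → V → Prop} : ∀ (l : List V), l.IsChain R →
    (∀ a ∈ l, ∀ b, R a b → S a b) → l.IsChain S
  | [], _, _ => by simp
  | [a], _, _ => by simp
  | a :: a' :: l, hc, h => by
    rw [List.isChain_cons_cons] at hc ⊢
    exact ⟨h a (by simp) a' hc.1,
      chain_imp (a' :: l) hc.2 fun b hb c => h b (List.mem_cons_of_mem _ hb) c⟩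

theorem WLA : WLA_stmt := by
  intro V _ ξ x y t
  induction t generalizing y with
  | zero =>
    intro h
    have hxy : x = y := by simpa [wk] using h
    subst hxy
    refine ⟨[x], 0, by simp, by simp, by simp, Relation.ReflTransGen.refl, by simp, ?_⟩
    intro u
    have h1 : ¬ (u ∈ [x] ∧ u ≠ x) := by simp
    rw [if_neg h1]
    rfl
  | succ t ih =>
    intro h
    obtain ⟨o, v, hov⟩ : ∃ o v, wk ξ x t = (o, v) := ⟨_, _, rfl⟩
    rcases o with _ | z
    · have h1 : wk ξ x (t + 1) = (none, v) := by
        rw [wk, hov]
      rw [h1] at h
      simp at h
    · have h1 : wk ξ x (t + 1) = (ξ z (v z), Function.update v z (v z + 1)) := by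
        rw [wk, hov]
      rw [h1] at h ⊢
      simp only at h ⊢
      obtain ⟨l, n, hnd, hhd, hlast, hre, hch, hv⟩ := ih z (by rw [hov])
      rw [hov] at hv
      simp only at hv
      have hz : z ∈ l := List.mem_of_getLast? hlast
      have hvz : v z = n z := by simpa using hv z
      rw [hvz] at h
      have hv' : ∀ u, u ≠ z → v u = n u + if u ∈ l then 1 else 0 := by
        intro u hu
        rw [hv u]
        simp [hu]
      by_cases hy : y ∈ l
      · obtain ⟨l1, l2, hl⟩ := List.append_of_mem hy
        have hlast2 : (y :: l2).getLast? = some z := by
          rw [hl] at hlast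
          rw [List.getLast?_append] at hlast
          rcases hg : (y :: l2).getLast? with _ | g
          · simp at hg
          · rw [hg] at hlast
            simpa using hlast
        have hnd' := hnd
        rw [hl] at hnd'
        rw [List.nodup_append] at hnd'
        obtain ⟨hnd1, hnd2, hdis⟩ := hnd'
        have hch' := hch
        rw [hl, List.isChain_append] at hch'
        obtain ⟨hc1, hc2, hc3⟩ := hch'
        have hzC : z ∈ y :: l2 := List.mem_of_getLast? hlast2
        set C : Finset V := (y :: l2).toFinset with hC
        have memC : ∀ u, u ∈ C ↔ u ∈ y :: l2 := fun u => by rw [hC, List.mem_toFinset]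
        have hcyc : IsCyc (top ξ n) C := by
          refine ⟨⟨y, by rw [memC]; simp⟩, ?_, ?_⟩
          · intro u hu
            rw [memC] at hu
            rcases chain_fwd _ z hc2 hlast2 u hu with h2 | ⟨w, hw, h2⟩
            · exact ⟨y, by rw [memC]; simp, by rw [h2]; exact h⟩
            · exact ⟨w, by rw [memC]; exact hw, h2⟩
          · intro w hw
            rw [memC] at hw
            rcases chain_bwd _ y hc2 w hw with h2 | ⟨u, hu, h2⟩
            · exact ⟨z, by rw [memC]; exact hzC, by rw [h2]; exact h⟩
            · exact ⟨u, by rw [memC]; exact hu, h2⟩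
        have hout : ∀ u ∈ l1, u ∉ C := by
          intro u hu hu2
          rw [memC] at hu2
          exact hdis u hu u hu2 rfl
        refine ⟨l1 ++ [y], pop n C, ?_, ?_, ?_, hre.tail ⟨C, hcyc, rfl⟩, ?_, ?_⟩
        · rw [List.nodup_append]
          refine ⟨hnd1, by simp, ?_⟩
          intro a ha b hb
          rw [List.mem_singleton] at hb
          rw [hb]
          exact hdis a ha y (by simp)
        · rw [hl, List.head?_append] at hhd
          rw [List.head?_append]
          simpa using hhd
        · simp
        · rw [List.isChain_append]
          refine ⟨chain_imp l1 hc1 ?_, by simp, ?_⟩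
          · intro a ha b hab
            have : pop n C a = n a := by unfold pop; rw [if_neg (hout a ha)]
            rw [this]
            exact hab
          · intro a ha b hb
            have ha1 : a ∈ l1 := List.mem_of_getLast? ha
            have : pop n C a = n a := by unfold pop; rw [if_neg (hout a ha1)]
            rw [this]
            apply hc3 a ha b
            simpa using hb
        · intro u
          by_cases hu : u = z
          · subst hu
            have h2 : ¬ (u ∈ l1 ++ [y] ∧ u ≠ y) := by
              rintro ⟨h3, h4⟩
              rw [List.mem_append, List.mem_singleton] at h3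
              rcases h3 with h3 | h3
              · exact hdis u h3 u hzC rfl
              · exact h4 h3
            rw [if_neg h2, Function.update_self]
            unfold pop
            rw [if_pos ((memC u).2 hzC), hvz]
          · rw [Function.update_of_ne hu, hv' u hu]
            unfold pop
            by_cases h3 : u ∈ l1
            · have h5 : u ≠ y := fun h6 => hdis u h3 y (by simp) h6
              rw [if_pos (by rw [hl]; simp [h3]), if_neg (hout u h3), if_pos (by simp [h3, h5])]
            · by_cases h4 : u ∈ y :: l2
              · have h6 : ¬ (u ∈ l1 ++ [y] ∧ u ≠ y) := by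
                  rintro ⟨h7, h8⟩
                  rw [List.mem_append, List.mem_singleton] at h7
                  exact h7.elim h3 h8
                rw [if_pos (by rw [hl]; exact List.mem_append_right _ h4),
                  if_pos ((memC u).2 h4), if_neg h6]
              · have h6 : ¬ (u ∈ l1 ++ [y] ∧ u ≠ y) := by
                  rintro ⟨h7, h8⟩
                  rw [List.mem_append, List.mem_singleton] at h7
                  exact h7.elim h3 h8
                have h7 : u ∉ l := by
                  rw [hl, List.mem_append]
                  exact fun h8 => h8.elim h3 h4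
                rw [if_neg h7, if_neg (fun h8 => h4 ((memC u).1 h8)), if_neg h6]
      · have hzy : z ≠ y := fun h2 => hy (h2 ▸ hz)
        refine ⟨l ++ [y], n, ?_, ?_, by simp, hre, ?_, ?_⟩
        · rw [List.nodup_append]
          refine ⟨hnd, by simp, ?_⟩
          intro a ha b hb
          rw [List.mem_singleton] at hb
          rw [hb]
          exact fun h2 => hy (h2 ▸ ha)
        · rw [List.head?_append, hhd]
          rfl
        · rw [List.isChain_append]
          refine ⟨hch, by simp, ?_⟩
          intro a ha b hb
          rw [hlast] at ha
          simp only [Option.mem_def, Option.some.injEq] at ha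
          simp only [List.head?_cons, Option.mem_def, Option.some.injEq] at hb
          rw [← ha, ← hb]
          exact h
        · intro u
          by_cases hu : u = z
          · subst hu
            rw [Function.update_self, if_pos ⟨List.mem_append_left _ hz, hzy⟩, hvz]
          · rw [Function.update_of_ne hu, hv' u hu]
            congr 1
            by_cases h3 : u ∈ l
            · have h5 : u ≠ y := fun h6 => hy (h6 ▸ h3)
              rw [if_pos h3, if_pos ⟨List.mem_append_left _ h3, h5⟩]
            · have h6 : ¬ (u ∈ l ++ [y] ∧ u ≠ y) := by
                rintro ⟨h7, h8⟩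
                rw [List.mem_append, List.mem_singleton] at h7
                exact h7.elim h3 h8
              rw [if_neg h3, if_neg h6]

end Pool.Agent.Helper67.WP
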